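import Pool.Agent.ChamberlandR3

set_option autoImplicit false

open scoped ContDiff

namespace Pool.Agent.Results.MP_830bfa_an.FailsFromDimensionThree

/-- Chamberland's spectral-radius injectivity conjecture fails in every dimension `n ≥ 3`: there is
a real-analytic map `f` of `ℝⁿ`, with everywhere invertible Jacobian, such that every complex
eigenvalue of every Jacobian matrix has modulus at least `1`, and which has a nonzero period;
in particular it is not injective. -/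
theorem result : ∀ n : ℕ, 3 ≤ n → ∃ f : (Fin n → ℝ) → (Fin n → ℝ), ContDiff ℝ ω f ∧
      (∀ x : Fin n → ℝ,
        (LinearMap.toMatrix' ((fderiv ℝ f x : (Fin n → ℝ) →L[ℝ] (Fin n → ℝ)) :
          (Fin n → ℝ) →ₗ[ℝ] (Fin n → ℝ))).det ≠ 0) ∧
      (∀ x : Fin n → ℝ, ∀ z : ℂ,
        Polynomial.aeval z
          (LinearMap.toMatrix' ((fderiv ℝ f x : (Fin n → ℝ) →L[ℝ] (Fin n → ℝ)) :
            (Fin n → ℝ) →ₗ[ℝ] (Fin n → ℝ))).charpoly = 0 → 1 ≤ ‖z‖) ∧
      (∃ p : Fin n → ℝ, p ≠ 0 ∧ ∀ x : Fin n → ℝ, f (x + p) = f x) ∧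
      ¬ Function.Injective f := by
  intro n hn
  obtain ⟨k, rfl⟩ : ∃ k, n = k + 3 := ⟨n - 3, by omega⟩
  refine ⟨Pool.Agent.ChamberlandR3.F, Pool.Agent.ChamberlandR3.contDiff_F _,
    Pool.Agent.ChamberlandR3.det_ne_zero, Pool.Agent.ChamberlandR3.one_le_norm_of_eigenvalue,
    ⟨Pi.single 0 (2 * Real.pi), ?_, Pool.Agent.ChamberlandR3.F_periodic⟩,
    Pool.Agent.ChamberlandR3.F_not_injective⟩
  intro h
  have := congrFun h 0
  simp at this

end Pool.Agent.Results.MP_830bfa_an.FailsFromDimensionThree
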